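import Pool.Agent.TH387.EX.Core
import Pool.Agent.Run7.h388.RM.DegB
import Pool.Agent.Run7.h388.RM.Cov

set_option autoImplicit false

/-!
# The equivalence of Q1 for random degrees: ALL multiplicities at once

A degree `d` is good for `r` points if for EVERY multiplicity `m ≥ 1` and a general set `Y` of `r` points the scheme `m Y` is
`AH₂(d)`, the equivalence of Q1 holds, and no exceptional form divides all elements of `[I_Y ^ (m)]_d` if this space is not zero.

A random degree has a finitely supported distribution `μ`. `Always Q` says that all random numbers for which the exponential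
sums `E e(θ d)` at certain finitely many irrational `θ` and the probability of small values are small have the property `Q`.

(1) With a probability of at least `0.0142` a random degree is good for EVERY `r ≥ 10`.

(2) With a probability of at least `0.931` it is good for `r = 10`, `11`, `13`, `15`, `21`, all `r ≥ 37` and all squares `r ≥ 16` at
once, with a probability of at least `0.599` also for `r = 12`, `14`, and with a probability of at least `0.148` also for `r = 12`,
`14`, `17`, `18`, that is, for all `r = 10, 11, ..., 18` and all these larger `r`.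

(3) For one `r ≥ 10` it is not good with a probability of at most `bad r + δ`, where `bad r < 0.24` for all `r`.

(4) (`CoversMore`) These bounds hold in particular for the random members of all intervals and all progressions of length `≥ L₀`,
for random numbers with `k ≥ k₀` independent digits, for positions of random walks, binomial laws, random members of very thin
families of residues, and all large terms of all sequences of random numbers whose exponential sums at the irrational frequencies
tend to zero and which do not concentrate on a single number; an arbitrary independent random number can be added.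

Proof. The windows and the cells of the degrees are those of helper141 (`Pool.Agent.N141.SG.Deg`, `Deg2`), with the short windows of
`Pool.Agent.N388.EFW` for eleven and fifteen points; the theorem on boxes for
random integers is `Pool.Agent.N794.DG`, the equivalence follows from the expected dimension by `Pool.Agent.TH387.EX.Core` (starting
tree). New (`Pool.Agent.Run7.h388.RM`): unions of boxes for random integers, one and several numbers of points.
-/

namespace Pool.Agent.Results.MP_8707bd_ag.RandomDegrees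

open MvPolynomial Filter Pool.Agent.TH387.EX
open Pool.Agent.N794.DG (Always meas)
open Pool.Agent.Run7.h388.RM (CoversMore)

/-- For a general set `Y` of `r` points: the scheme `m Y` is `AH₂(d)`, the equivalence of Q1 holds, and no exceptional form
divides all elements of `[I_Y ^ (m)]_d` if this space is not zero. -/
def Settled (r m d : ℕ) : Prop :=
  ∃ Φ : MvPolynomial (Fin r × Fin 2) ℂ, Φ ≠ 0 ∧ ∀ Y : Fin r → Fin 2 → ℂ,
    MvPolynomial.eval (fun ij : Fin r × Fin 2 => Y ij.1 ij.2) Φ ≠ 0 →
      IsAH Y m d ∧ Equivalence Y m d ∧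
        (part (fat Y m) d ≠ ⊥ → ∀ F, IsExceptional Y F → ∃ G ∈ part (fat Y m) d, ¬ F ∣ G)

/-- The degree `d` is good for `r` points: EVERY multiplicity. -/
def Good (r d : ℕ) : Prop := ∀ m : ℕ, 1 ≤ m → Settled r m d

/-- The degree `d` is good for all numbers of points in the finite set `S` and for `r = 13`, `21`, `r ≥ 37` and all squares
`r ≥ 16`. -/
def GoodFor (S : Finset ℕ) (d : ℕ) : Prop :=
  ∀ r : ℕ, 10 ≤ r → (r ∈ S ∨ 37 ≤ r ∨ r = 13 ∨ r = 21 ∨ IsSquare r) → Good r d

open Classical in
/-- The bound for the proportion of the bad degrees for `r` points. -/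
noncomputable def bad (r : ℕ) : ℝ :=
  if 37 ≤ r ∨ r = 13 ∨ r = 21 ∨ IsSquare r then 0
  else if r = 11 ∨ r = 15 then (√(r : ℝ) - 3) ^ 2 / (2 * √(r : ℝ) * (√(r : ℝ) + 3))
  else (min (√(r : ℝ) - 3) (2 / 3 + 9 / (4 * √(r : ℝ))) +
    min (√(r : ℝ) - 3) (2 / 3 + 1 / (4 * √(r : ℝ)))) / (2 * √(r : ℝ))

theorem settled_of {r m d : ℕ} (hr : 10 ≤ r) (h : ∃ F : MvPolynomial (Fin r × Fin 2) ℚ, F ≠ 0 ∧
    ∀ P : Fin r → Fin 2 → ℂ, MvPolynomial.aeval (fun ij : Fin r × Fin 2 => P ij.1 ij.2) F ≠ 0 →
      Pool.Agent.H932R3.ExpDim ℂ (fun _ => m) P d) : Settled r m d := by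
  obtain ⟨F, hF, hF'⟩ := h
  obtain ⟨Φ, hΦ, hΦ'⟩ := core hr (S := {d}) ⟨F, hF, fun P hP d' hd' => by
    rw [Set.mem_singleton_iff.1 hd']
    exact hF' P hP⟩
  refine ⟨Φ, hΦ, fun Y hY => ?_⟩
  obtain ⟨h1, _, h3⟩ := hΦ' Y hY
  exact ⟨(h1 d (Set.mem_singleton d)).1, (h1 d (Set.mem_singleton d)).2, h3 d⟩

theorem good_of {r d : ℕ} (hr : 10 ≤ r) (h : Pool.Agent.Run7.h388.RM.DegOk r d) : Good r d := fun _ hm =>
  settled_of hr (Pool.Agent.Run7.h388.RM.every_degOk h hr hm)

theorem all_of {d : ℕ} (h : Pool.Agent.N141.SG.DTgt d) : ∀ r : ℕ, 10 ≤ r → Good r d := fun _ hr _ hm =>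
  settled_of hr (Pool.Agent.N141.SG.every_deg h hr hm)

theorem goodFor_of {S : Finset ℕ} {d : ℕ}
    (h : ∀ r, r ∈ S ∨ Pool.Agent.Run7.h388.RM.Free r → Pool.Agent.Run7.h388.RM.DegOk r d) : GoodFor S d :=
  fun r hr h' => good_of hr (h r h')

theorem joint {S : Finset ℕ} {c : ℝ} (h : Always fun μ => c ≤ meas μ fun d =>
    ∀ r, r ∈ S ∨ Pool.Agent.Run7.h388.RM.Free r → Pool.Agent.Run7.h388.RM.DegOk r d) :
    Always fun μ => c ≤ meas μ (GoodFor S) :=
  h.mono fun _ hμ h1 => h1.trans (Pool.Agent.N794.DG.meas_mono hμ fun _ hd => goodFor_of hd)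

theorem always_all : Always fun μ => 0.0142 ≤ meas μ fun d => ∀ r : ℕ, 10 ≤ r → Good r d :=
  Pool.Agent.Run7.h388.RM.always_dtgt.mono fun _ hμ h1 =>
    h1.trans (Pool.Agent.N794.DG.meas_mono hμ fun _ hd => all_of hd)

theorem always_one {r : ℕ} (hr : 10 ≤ r) {δ : ℝ} (hδ : 0 < δ) :
    Always fun μ => meas μ (fun d => ¬ Good r d) ≤ bad r + δ :=
  (Pool.Agent.Run7.h388.RM.always_degOk hr hδ).mono fun _ hμ h =>
    (Pool.Agent.N794.DG.meas_mono hμ fun _ hm h1 => hm (good_of hr h1)).trans h

/-- **Main result.** -/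
theorem result :
    (Always fun μ => 0.0142 ≤ meas μ fun d => ∀ r : ℕ, 10 ≤ r → Good r d) ∧
    (Always fun μ => 0.931 ≤ meas μ (GoodFor {10, 11, 15})) ∧
    (Always fun μ => 0.599 ≤ meas μ (GoodFor {10, 11, 12, 14, 15})) ∧
    (Always fun μ => 0.148 ≤ meas μ (GoodFor {10, 11, 12, 14, 15, 17, 18})) ∧
    (∀ r : ℕ, 10 ≤ r → ∀ δ : ℝ, 0 < δ → Always fun μ => meas μ (fun d => ¬ Good r d) ≤ bad r + δ) ∧
    (∀ r : ℕ, 10 ≤ r → bad r < 0.24) ∧
    (bad 10 < 0.05132 ∧ bad 11 < 0.0024 ∧ bad 12 < 0.13398 ∧ bad 14 < 0.19822 ∧ bad 15 < 0.01432 ∧ bad 17 < 0.2244 ∧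
      bad 18 < 0.2266) ∧
    CoversMore :=
  ⟨always_all, joint Pool.Agent.Run7.h388.RM.always_three, joint Pool.Agent.Run7.h388.RM.always_five,
    joint Pool.Agent.Run7.h388.RM.always_seven, fun _ hr _ hδ => always_one hr hδ,
    fun _ hr => Pool.Agent.Run7.h388.RM.badDeg_lt hr, Pool.Agent.Run7.h388.RM.badDeg_vals,
    Pool.Agent.Run7.h388.RM.coversMore⟩

end Pool.Agent.Results.MP_8707bd_ag.RandomDegrees
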