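import Pool.Agent.TH387.EX.Core
import Pool.Agent.Run7.h388.RM.DegB
import Pool.Agent.Run7.h388.RM.Sure

set_option autoImplicit false

/-!
# The equivalence of Q1 for the degrees along random walks, almost surely

A degree `d` is good for `r` points if for EVERY multiplicity `m ≥ 1` and a general set `Y` of `r` points the scheme `m Y` is
`AH₂(d)`, the equivalence of Q1 holds, and no exceptional form divides all elements of `[I_Y ^ (m)]_d` if this space is not zero.

`Surely R`: the property `R` of sequences of natural numbers holds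

* for almost all paths `k ↦ c₀ + κ (X 0 + ... + X (k - 1))` of all random walks with independent steps `X i` each of which takes
  two fixed values `a ≠ b` with probabilities at least `η > 0` (the steps need not be identically distributed, bounded or of finite
  mean), for all `κ ≥ 1`, `c₀`;
* for almost all sequences of independent random natural numbers `Y k` such that `P (Y k = m) → 0` for every `m` and
  `E e(θ Y k) → 0` for every irrational `θ`.

`hits x Q K` is the number of the `k < K` such that `x k` has the property `Q`.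

**Theorem.** Almost surely the following is true for the sequence `x` of degrees, for all large `K`.

(1) At least `0.0142 K` of the first `K` degrees are good for EVERY `r ≥ 10`.

(2) At least `0.931 K` of them are good for `r = 10`, `11`, `13`, `15`, `21`, all `r ≥ 37` and all squares `r ≥ 16` at once, at least
`0.599 K` also for `r = 12`, `14`, and at least `0.148 K` also for `r = 12`, `14`, `17`, `18`, that is, for all `r = 10, 11, ..., 18` and
all these larger `r`.

(3) For every `r ≥ 10` and `δ > 0` at most `(bad r + δ) K` of them are not good for `r`, where `bad r < 0.24` for all `r`.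

Proof. The windows and the cells of the degrees are those of helper141 (`Pool.Agent.N141.SG.Deg`, `Deg2`), with the short windows of
`Pool.Agent.N388.EFW` for eleven and fifteen points; the deterministic criterion
`Always` is `Pool.Agent.N794.DG` (starting tree). New (`Pool.Agent.Run7.h388.RM`): the second moments of the exponential sums along a
random walk are `O(K)` at every irrational frequency, so the sums are `o(K)` almost surely, the path tends to infinity, and the
empirical distributions of almost every path have eventually all properties in the sense of `Always`; unions of boxes for random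
integers.
-/

namespace Pool.Agent.Results.MP_8707bd_ag.RandomWalkDegrees

open MvPolynomial Filter Pool.Agent.TH387.EX
open Pool.Agent.N794.DG (Always meas)
open Pool.Agent.Run7.h388.RM (Surely hits)

/-- For a general set `Y` of `r` points: the scheme `m Y` is `AH₂(d)`, the equivalence of Q1 holds, and no exceptional form
divides all elements of `[I_Y ^ (m)]_d` if this space is not zero. -/
def Settled (r m d : ℕ) : Prop :=
  ∃ Φ : MvPolynomial (Fin r × Fin 2) ℂ, Φ ≠ 0 ∧ ∀ Y : Fin r → Fin 2 → ℂ,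
    MvPolynomial.eval (fun ij : Fin r × Fin 2 => Y ij.1 ij.2) Φ ≠ 0 →
      IsAH Y m d ∧ Equivalence Y m d ∧
        (part (fat Y m) d ≠ ⊥ → ∀ F, IsExceptional Y F → ∃ G ∈ part (fat Y m) d, ¬ F ∣ G)

/-- The degree `d` is good for `r` points: EVERY multiplicity. -/
def Good (r d : ℕ) : Prop := ∀ m : ℕ, 1 ≤ m → Settled r m d

/-- The degree `d` is good for all numbers of points in the finite set `S` and for `r = 13`, `21`, `r ≥ 37` and all squares
`r ≥ 16`. -/
def GoodFor (S : Finset ℕ) (d : ℕ) : Prop :=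
  ∀ r : ℕ, 10 ≤ r → (r ∈ S ∨ 37 ≤ r ∨ r = 13 ∨ r = 21 ∨ IsSquare r) → Good r d

open Classical in
/-- The bound for the proportion of the bad degrees for `r` points. -/
noncomputable def bad (r : ℕ) : ℝ :=
  if 37 ≤ r ∨ r = 13 ∨ r = 21 ∨ IsSquare r then 0
  else if r = 11 ∨ r = 15 then (√(r : ℝ) - 3) ^ 2 / (2 * √(r : ℝ) * (√(r : ℝ) + 3))
  else (min (√(r : ℝ) - 3) (2 / 3 + 9 / (4 * √(r : ℝ))) +
    min (√(r : ℝ) - 3) (2 / 3 + 1 / (4 * √(r : ℝ)))) / (2 * √(r : ℝ))

theorem settled_of {r m d : ℕ} (hr : 10 ≤ r) (h : ∃ F : MvPolynomial (Fin r × Fin 2) ℚ, F ≠ 0 ∧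
    ∀ P : Fin r → Fin 2 → ℂ, MvPolynomial.aeval (fun ij : Fin r × Fin 2 => P ij.1 ij.2) F ≠ 0 →
      Pool.Agent.H932R3.ExpDim ℂ (fun _ => m) P d) : Settled r m d := by
  obtain ⟨F, hF, hF'⟩ := h
  obtain ⟨Φ, hΦ, hΦ'⟩ := core hr (S := {d}) ⟨F, hF, fun P hP d' hd' => by
    rw [Set.mem_singleton_iff.1 hd']
    exact hF' P hP⟩
  refine ⟨Φ, hΦ, fun Y hY => ?_⟩
  obtain ⟨h1, _, h3⟩ := hΦ' Y hY
  exact ⟨(h1 d (Set.mem_singleton d)).1, (h1 d (Set.mem_singleton d)).2, h3 d⟩

theorem good_of {r d : ℕ} (hr : 10 ≤ r) (h : Pool.Agent.Run7.h388.RM.DegOk r d) : Good r d := fun _ hm =>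
  settled_of hr (Pool.Agent.Run7.h388.RM.every_degOk h hr hm)

theorem all_of {d : ℕ} (h : Pool.Agent.N141.SG.DTgt d) : ∀ r : ℕ, 10 ≤ r → Good r d := fun _ hr _ hm =>
  settled_of hr (Pool.Agent.N141.SG.every_deg h hr hm)

theorem goodFor_of {S : Finset ℕ} {d : ℕ}
    (h : ∀ r, r ∈ S ∨ Pool.Agent.Run7.h388.RM.Free r → Pool.Agent.Run7.h388.RM.DegOk r d) : GoodFor S d :=
  fun r hr h' => good_of hr (h r h')

theorem joint {S : Finset ℕ} {c : ℝ} (h : Always fun μ => c ≤ meas μ fun d =>
    ∀ r, r ∈ S ∨ Pool.Agent.Run7.h388.RM.Free r → Pool.Agent.Run7.h388.RM.DegOk r d) :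
    Always fun μ => c ≤ meas μ (GoodFor S) :=
  h.mono fun _ hμ h1 => h1.trans (Pool.Agent.N794.DG.meas_mono hμ fun _ hd => goodFor_of hd)

theorem always_all : Always fun μ => 0.0142 ≤ meas μ fun d => ∀ r : ℕ, 10 ≤ r → Good r d :=
  Pool.Agent.Run7.h388.RM.always_dtgt.mono fun _ hμ h1 =>
    h1.trans (Pool.Agent.N794.DG.meas_mono hμ fun _ hd => all_of hd)

theorem always_one {r : ℕ} (hr : 10 ≤ r) {δ : ℝ} (hδ : 0 < δ) :
    Always fun μ => meas μ (fun d => ¬ Good r d) ≤ bad r + δ :=
  (Pool.Agent.Run7.h388.RM.always_degOk hr hδ).mono fun _ hμ h =>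
    (Pool.Agent.N794.DG.meas_mono hμ fun _ hm h1 => hm (good_of hr h1)).trans h

/-- **Main result.** -/
theorem result :
    (Surely fun x =>
      (∀ᶠ K : ℕ in atTop, 0.0142 * K ≤ hits x (fun d => ∀ r : ℕ, 10 ≤ r → Good r d) K) ∧
      (∀ᶠ K : ℕ in atTop, 0.931 * K ≤ hits x (GoodFor {10, 11, 15}) K) ∧
      (∀ᶠ K : ℕ in atTop, 0.599 * K ≤ hits x (GoodFor {10, 11, 12, 14, 15}) K) ∧
      (∀ᶠ K : ℕ in atTop, 0.148 * K ≤ hits x (GoodFor {10, 11, 12, 14, 15, 17, 18}) K) ∧
      (∀ r : ℕ, 10 ≤ r → ∀ δ : ℝ, 0 < δ → ∀ᶠ K : ℕ in atTop, hits x (fun d => ¬ Good r d) K ≤ (bad r + δ) * K)) ∧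
    (∀ r : ℕ, 10 ≤ r → bad r < 0.24) ∧
    (bad 10 < 0.05132 ∧ bad 11 < 0.0024 ∧ bad 12 < 0.13398 ∧ bad 14 < 0.19822 ∧ bad 15 < 0.01432 ∧ bad 17 < 0.2244 ∧
      bad 18 < 0.2266) := by
  have h1 := always_all
  have h2 := joint Pool.Agent.Run7.h388.RM.always_three
  have h3 := joint Pool.Agent.Run7.h388.RM.always_five
  have h4 := joint Pool.Agent.Run7.h388.RM.always_seven
  exact ⟨(Pool.Agent.Run7.h388.RM.surely_ge h1).and ((Pool.Agent.Run7.h388.RM.surely_ge h2).and
      ((Pool.Agent.Run7.h388.RM.surely_ge h3).and ((Pool.Agent.Run7.h388.RM.surely_ge h4).and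
        (Pool.Agent.Run7.h388.RM.surely_ten fun r hr => Pool.Agent.Run7.h388.RM.surely_le fun δ hδ =>
          always_one hr hδ)))),
    fun _ hr => Pool.Agent.Run7.h388.RM.badDeg_lt hr, Pool.Agent.Run7.h388.RM.badDeg_vals⟩

end Pool.Agent.Results.MP_8707bd_ag.RandomWalkDegrees
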