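import Pool.Agent.Results.MP_8707bd_ag.EquivalenceRandomMultiplicities
import Pool.Agent.Run7.h388.RM.Joint
import Pool.Agent.Run7.h388.RM.Sure

set_option autoImplicit false

/-!
# The equivalence of Q1 along random walks, almost surely

`Surely R`: the property `R` of sequences of natural numbers holds

* for almost all paths `k ↦ c₀ + κ (X 0 + ... + X (k - 1))` of all random walks with independent steps `X i` each of which takes
  two fixed values `a ≠ b` with probabilities at least `η > 0` (the steps need not be identically distributed, bounded or of finite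
  mean), for all `κ ≥ 1`, `c₀`;
* for almost all sequences of independent random natural numbers `Y k` such that `P (Y k = m) → 0` for every `m` and
  `E e(θ Y k) → 0` for every irrational `θ`.

`hits x Q K` is the number of the `k < K` such that `x k` has the property `Q`.

**Theorem.** Almost surely the following is true for the sequence `x` of multiplicities.

(1) For all large `K`, at least `K / 10 ^ 65` of the first `K` multiplicities `m = x k` are good for ALL numbers of points at once: for
EVERY `r ≥ 10` and EVERY degree `d` for a general set `Y` of `r` points the scheme `m Y` is `AH₂(d)`, the equivalence of Q1 holds, and no exceptional form divides all elements of `[I_Y ^ (m)]_d` if this space is not zero.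

(2) For all large `K`, at least `0.815 K` of the first `K` multiplicities have this property for `r = 10`, `11`, `13`, `15`, `21`, all
squares `r ≥ 16` and all `r ≥ 37` at once.

(3) For every `r ≥ 10`, `δ > 0` and all large `K`, at most `(bad r + δ) K` of the first `K` multiplicities do not have the property for
`r`; `bad r < 1`, `bad 10 < 0.163`.

Proof. The windows of the plane systems are those of the starting tree (`Pool.Agent.N141.SG`, `Pool.Agent.TH885.NW`, and
`Pool.Agent.N388.EFW` for eleven and fifteen points), the deterministic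
criterion `Always` is `Pool.Agent.N794.DG`. New (`Pool.Agent.Run7.h388.RM`): the second moments of the exponential sums along a
random walk are `O(K)` at every irrational frequency, so the sums are `o(K)` almost surely (squares and interpolation), the path tends
to infinity, and the empirical distributions of almost every path have eventually all properties in the sense of `Always`.
-/

namespace Pool.Agent.Results.MP_8707bd_ag.RandomWalkPaths

open MvPolynomial Filter Pool.Agent.TH387.EX
open Pool.Agent.Run7.h388.RM (Surely hits Most)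

/-- For a general set `Y` of `r` points (one nonempty open set) and every degree `d`: the scheme `m Y`
is `AH₂(d)`, the equivalence of Q1 holds, and no exceptional form divides all elements of
`[I_Y ^ (m)]_d` if this space is not zero. -/
def Settled (r m : ℕ) : Prop :=
  ∃ Φ : MvPolynomial (Fin r × Fin 2) ℂ, Φ ≠ 0 ∧ ∀ Y : Fin r → Fin 2 → ℂ,
    MvPolynomial.eval (fun ij : Fin r × Fin 2 => Y ij.1 ij.2) Φ ≠ 0 →
      ∀ d : ℕ, IsAH Y m d ∧ Equivalence Y m d ∧
        (part (fat Y m) d ≠ ⊥ → ∀ F, IsExceptional Y F → ∃ G ∈ part (fat Y m) d, ¬ F ∣ G)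

/-- The multiplicity `m ≥ 1` is settled for every number `r ≥ 10` of points. -/
def Holds (m : ℕ) : Prop := 1 ≤ m ∧ ∀ r : ℕ, 10 ≤ r → Settled r m

open Classical in
/-- The bound for the frequency of the bad multiplicities for `r` points. -/
noncomputable def bad (r : ℕ) : ℝ :=
  if 37 ≤ r ∨ r = 13 ∨ r = 21 ∨ IsSquare r then 0
  else if r = 11 ∨ r = 15 then (√(r : ℝ) - 3) ^ 2 / (6 * (√(r : ℝ) + 3))
  else (min (√(r : ℝ) - 3) (2 / 3 + 9 / (4 * √(r : ℝ))) +
    min (√(r : ℝ) - 3) (2 / 3 + 1 / (4 * √(r : ℝ)))) / 2

theorem settled_of {r m : ℕ} (hr : 10 ≤ r) (h : Pool.Agent.N141.SG.Ex r m) : Settled r m :=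
  Pool.Agent.Results.MP_8707bd_ag.EquivalenceRandomMultiplicities.settled_of hr h

theorem holds_of {m : ℕ} (hm : 1 ≤ m) (h : Pool.Agent.N141.SG.Tgt (m : ℕ)) : Holds m :=
  ⟨hm, fun _ hr => settled_of hr (Pool.Agent.N141.SG.every h hm hr)⟩

/-- **Main result.** -/
theorem result :
    (Surely fun x => ∀ᶠ K : ℕ in atTop, 1 / 10 ^ 65 * K ≤ hits x Holds K) ∧
    (Surely fun x => ∀ᶠ K : ℕ in atTop,
      0.815 * K ≤ hits x (fun m => 1 ≤ m ∧ ∀ r : ℕ, 10 ≤ r → Most r → Settled r m) K) ∧
    (Surely fun x => ∀ r : ℕ, 10 ≤ r → ∀ δ : ℝ, 0 < δ → ∀ᶠ K : ℕ in atTop,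
      hits x (fun m => ¬ Settled r m) K ≤ (bad r + δ) * K) ∧
    (∀ r : ℕ, 10 ≤ r → bad r < 1) ∧
    (bad 10 < 0.163 ∧ bad 11 < 0.0027 ∧ bad 12 < 0.465 ∧ bad 14 < 0.738 ∧ bad 15 < 0.0185) := by
  refine ⟨?_, ?_, ?_, fun r hr => Pool.Agent.Run7.h388.RM.badS_lt hr, Pool.Agent.Run7.h388.RM.badS_vals⟩
  · exact Pool.Agent.Run7.h388.RM.surely_ge (Pool.Agent.N794.DG.always_tgt.mono fun μ hμ h =>
      h.trans (Pool.Agent.N794.DG.meas_mono hμ fun m hm => holds_of hm.1 hm.2))
  · exact Pool.Agent.Run7.h388.RM.surely_ge (Pool.Agent.Run7.h388.RM.always_most.mono fun μ hμ h =>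
      h.trans (Pool.Agent.N794.DG.meas_mono hμ fun m hm => ⟨hm.1, fun r hr hmost => settled_of hr (hm.2 r hr hmost)⟩))
  · exact Pool.Agent.Run7.h388.RM.surely_ten fun r hr => Pool.Agent.Run7.h388.RM.surely_le fun δ hδ =>
      (Pool.Agent.Run7.h388.RM.always_sharp hr hδ).mono fun μ hμ h =>
        (Pool.Agent.N794.DG.meas_mono hμ fun m hm h1 => hm (settled_of hr h1)).trans h

end Pool.Agent.Results.MP_8707bd_ag.RandomWalkPaths
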