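import Mathlib
import Pool.Agent.TH387.EX.Core
import Pool.Agent.Run7.h823.NG.S4
import Pool.Agent.Run7.h823.NG.S5

set_option autoImplicit false

/-!
# The equivalence of Q1 for all numbers of points and all degrees at once: multiplicities in sparse families of residues

Let `y_i`, `i ∈ s`, be any finite family of residues modulo an integer `q`, represented by the least residues
`0 ≤ y_i < q`, whose Fourier coefficients at the nonzero frequencies are at most `1 / (K log q)` times their number (`Flat`),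
`K` a large constant and `q ≥ K`, and let `c₀` be any natural number. The family can be very sparse, for instance have only
`q ^ ε` members.

(1) For at least the proportion `1 / 10000 ^ 22` of the members `m = c₀ + y_i`, `K` an absolute constant:
    for EVERY number `r ≥ 10` of points and EVERY degree `d` the scheme `m Y` is `AH₂(d)` and the equivalence of Q1
    holds.

(2) For every single number `n ≥ 10` of points, `δ > 0`, and `K` large enough in terms of `n` and `δ`: in all degrees this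
    holds for all but at most the proportion `bad n + δ` of the members `m ≥ 1`; `bad n < 1`, `bad n = 0` for `n ≥ 37`,
    `n = 13`, `n = 21` and the squares, `bad 10 < 0.163`, `bad 11 < 0.053`.

(3) Examples of such families (for every `K`, `ε > 0`, `k` and all large primes `m`): the first `N ≥ m ^ ε` values
    `c_1 g_1 ^ n + ... + c_k g_k ^ n` modulo `m`, `n < N`, `c ≠ 0`, where the orders of the `g_i` and of the quotients `g_i / g_j`,
    `i ≠ j`, are at least `m ^ ε`.

(4) For every integer `b ≥ 2` and all but `C X ^ ε` of the primes `m ≤ X`: the residues `x b ^ n` modulo `m`, `n < N`, for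
    every `N ≥ m ^ ε` and every `x ≠ 0`. For instance the multiplicities `2 ^ n mod m`, `n < m ^ ε`.

In the starting results the multiplicities are integer parts of generalised polynomials, values of polynomials, primes,
exponential sequences, all long intervals, and almost all sequences with a real parameter.

From Mathlib: `ZMod.stdAddChar`: the additive character `j ↦ exp (2 π i j / q)` of the integers modulo `q`; `ZMod.val`: the
least residue.

Proof. The plane systems are those of helper141 (`Pool.Agent.N141.SG`): a multiplicity is good if its multiples by certain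
square roots lie in certain arcs modulo one. The exponential sums of `θ y_i`, `θ` irrational, are estimated by the Fourier
coefficients modulo `q` (`Pool.Agent.Run7.h823.NG`); those of short recurrences by the method of Bourgain, Glibichuk and
Konyagin (`Pool.Agent.Run7.h823.BK`).
-/

namespace Pool.Agent.Results.MP_8707bd_ag.ResidueMultiplicities

open MvPolynomial Filter Pool.Agent.TH387.EX

/-- For a general set `Y` of `r` points (one nonempty open set) and every degree `d`: the scheme `m Y`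
is `AH₂(d)`, the equivalence of Q1 holds, and no exceptional form divides all elements of
`[I_Y ^ (m)]_d` if this space is not zero. -/
def Settled (r m : ℕ) : Prop :=
  ∃ Φ : MvPolynomial (Fin r × Fin 2) ℂ, Φ ≠ 0 ∧ ∀ Y : Fin r → Fin 2 → ℂ,
    MvPolynomial.eval (fun ij : Fin r × Fin 2 => Y ij.1 ij.2) Φ ≠ 0 →
      ∀ d : ℕ, IsAH Y m d ∧ Equivalence Y m d ∧
        (part (fat Y m) d ≠ ⊥ → ∀ F, IsExceptional Y F → ∃ G ∈ part (fat Y m) d, ¬ F ∣ G)

/-- The multiplicity `m ≥ 1` is settled for every number `r ≥ 10` of points. -/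
def Holds (m : ℕ) : Prop := 1 ≤ m ∧ ∀ r : ℕ, 10 ≤ r → Settled r m

open Classical in
/-- The bound for the proportion of the bad multiplicities for `r` points. -/
noncomputable def bad (r : ℕ) : ℝ :=
  if 37 ≤ r ∨ r = 13 ∨ r = 21 ∨ IsSquare r then 0
  else if r = 11 ∨ r = 15 then (√(r : ℝ) - 3) / 6
  else (min (√(r : ℝ) - 3) (2 / 3 + 9 / (4 * √(r : ℝ))) +
    min (√(r : ℝ) - 3) (2 / 3 + 1 / (4 * √(r : ℝ)))) / 2

/-- The Fourier coefficients of the residues `y i`, `i ∈ s`, modulo `q` at the nonzero frequencies are at most `η` times the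
number of the residues: `|∑ i ∈ s, e(h y_i / q)| ≤ η |s|` for all `h ≠ 0` modulo `q`. -/
def Flat {τ : Type} (q : ℕ) [NeZero q] (η : ℝ) (s : Finset τ) (y : τ → ZMod q) : Prop :=
  ∀ h : ZMod q, h ≠ 0 → ‖∑ i ∈ s, (ZMod.stdAddChar (h * y i) : ℂ)‖ ≤ η * s.card

/-- The natural number `c₀ + y_i`, with the least residue `0 ≤ y_i < q`. -/
def mult {τ : Type} {q : ℕ} (y : τ → ZMod q) (c₀ : ℕ) (i : τ) : ℕ := c₀ + (y i).val

theorem settled_of {r m : ℕ} (hr : 10 ≤ r) (h : Pool.Agent.Run7.h823.NG.Ex r m) : Settled r m := by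
  obtain ⟨F, hF, hF'⟩ := h
  obtain ⟨Φ, hΦ, hΦ'⟩ := core hr (S := Set.univ) ⟨F, hF, fun P hP d _ => hF' P hP d⟩
  refine ⟨Φ, hΦ, fun Y hY d => ?_⟩
  obtain ⟨h1, _, h3⟩ := hΦ' Y hY
  exact ⟨(h1 d (Set.mem_univ d)).1, (h1 d (Set.mem_univ d)).2, h3 d⟩

theorem holds_of {m : ℕ} (hm : 1 ≤ m) (h : Pool.Agent.Run7.h823.NG.Tgt (m : ℕ)) : Holds m :=
  ⟨hm, fun _ hr => settled_of hr (Pool.Agent.Run7.h823.NG.every h hm hr)⟩

/-- **Main result.** (1) A positive proportion of the members is good for all numbers of points at once. (2) One number of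
points: at most the proportion `bad n + δ` is bad. (3), (4) Examples. (5) The bounds for the proportions. -/
theorem result :
    (∃ K : ℕ, 0 < K ∧ ∀ (q : ℕ) [NeZero q], K ≤ q → ∀ (τ : Type) (s : Finset τ) (y : τ → ZMod q),
      Flat q (1 / (K * Real.log q)) s y → ∀ c₀ : ℕ,
      1 / 10000 ^ 22 * (s.card : ℝ) ≤ ({i : τ | i ∈ s ∧ Holds (mult y c₀ i)}.ncard : ℝ)) ∧
    (∀ n : ℕ, 10 ≤ n → ∀ δ : ℝ, 0 < δ → ∃ K : ℕ, 0 < K ∧ ∀ (q : ℕ) [NeZero q], K ≤ q →
      ∀ (τ : Type) (s : Finset τ) (y : τ → ZMod q), Flat q (1 / (K * Real.log q)) s y → ∀ c₀ : ℕ,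
      ({i : τ | i ∈ s ∧ 1 ≤ mult y c₀ i ∧ ¬ Settled n (mult y c₀ i)}.ncard : ℝ) ≤ (bad n + δ) * s.card) ∧
    (∀ (k K : ℕ) (ε : ℝ), 0 < K → 0 < ε → ∃ m₀ : ℕ, ∀ (m : ℕ) [Fact m.Prime], m₀ ≤ m →
      ∀ (c : Fin k → ZMod m) (g : Fin k → (ZMod m)ˣ) (N : ℕ), c ≠ 0 → (∀ i, (m : ℝ) ^ ε ≤ orderOf (g i)) →
      (∀ i j, i ≠ j → (m : ℝ) ^ ε ≤ orderOf (g i / g j)) → (m : ℝ) ^ ε ≤ N →
      Flat m (1 / (K * Real.log m)) (Finset.range N) (fun n => ∑ i, c i * (g i : ZMod m) ^ n)) ∧
    (∀ (b K : ℕ) (ε : ℝ), 2 ≤ b → 0 < K → 0 < ε → ∃ C : ℝ, ∀ X : ℕ, 1 ≤ X → ∀ Q : Finset ℕ,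
      (∀ m ∈ Q, m ≤ X ∧ ∃ _ : Fact m.Prime, ¬ ∀ N : ℕ, (m : ℝ) ^ ε ≤ N → ∀ x : ZMod m, x ≠ 0 →
        Flat m (1 / (K * Real.log m)) (Finset.range N) (fun n => x * (b : ZMod m) ^ n)) →
      (Q.card : ℝ) ≤ C * (X : ℝ) ^ ε) ∧
    (∀ n : ℕ, 10 ≤ n → bad n < 1) ∧
    (bad 10 < 0.163 ∧ bad 11 < 0.053 ∧ bad 12 < 0.465 ∧ bad 14 < 0.738 ∧ bad 15 < 0.146) := by
  refine ⟨?_, ?_, ?_, ?_, ?_, ?_⟩
  · obtain ⟨K, hK, h⟩ := Pool.Agent.Run7.h823.NG.tgt_flat
    refine ⟨K, hK, fun q _ hq τ s y hf c₀ => (h q hq τ s y hf (c₀ : ℤ)).trans ?_⟩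
    apply Pool.Agent.Run7.h823.WF.ncard_mono
    intro i _ h1
    have e1 : (c₀ : ℤ) + ((y i).val : ℕ) = ((mult y c₀ i : ℕ) : ℤ) := by
      unfold mult
      push_cast
      rfl
    rw [e1] at h1
    rcases Nat.eq_zero_or_pos (mult y c₀ i) with h0 | h0
    · exfalso
      rw [h0] at h1
      exact Pool.Agent.Run7.h823.NG.not_tgt_zero h1
    · exact holds_of h0 h1
  · intro n hn δ hδ
    obtain ⟨K, hK, h⟩ := Pool.Agent.Run7.h823.NG.one_flat hn hδ
    refine ⟨K, hK, fun q _ hq τ s y hf c₀ => le_trans ?_ (h q hq τ s y hf (c₀ : ℤ))⟩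
    apply Pool.Agent.Run7.h823.WF.ncard_mono
    rintro i _ ⟨h1, h2⟩
    refine ⟨mult y c₀ i, h1, ?_, fun h3 => h2 (settled_of hn h3)⟩
    unfold mult
    push_cast
    rfl
  · exact fun k K ε hK hε => Pool.Agent.Run7.h823.NG.ex_rec k K hK hε
  · exact fun b K ε hb hK hε => Pool.Agent.Run7.h823.NG.ex_pow b K hb hK hε
  · exact fun n hn => Pool.Agent.Run7.h823.NG.badU_lt hn
  · exact Pool.Agent.Run7.h823.NG.badU_vals

end Pool.Agent.Results.MP_8707bd_ag.ResidueMultiplicities
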